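import Pool.Agent.U167.SA.Stm7
import Pool.Agent.U147.SA.ASMG

/-!
Project SA (helper167), package SWXG (helper796): the swapping inequality for general targets,
further far connections and forced edges. Adapted from `Pool.Agent.U147.SA.ASMG` (helper147).
-/

set_option autoImplicit false

open scoped Classical

namespace Pool.Agent.U796.SA

open H974 Finset Filter Topology
open Pool.Agent.U167.SA Pool.Agent.U363.SA
open Pool.Agent.U147.SA (okh)

theorem ex_box (e : Edg) : ∃ N, e ∈ boxE N := by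
  obtain ⟨x, y, b⟩ := e
  refine ⟨x.natAbs + y.natAbs + 1, ?_⟩
  unfold boxE
  cases b
  · simp only [mem_RE_false]
    push_cast
    refine ⟨?_, ?_, ?_, ?_⟩ <;> rcases abs_cases x with ⟨h1, _⟩ | ⟨h1, _⟩ <;>
      rcases abs_cases y with ⟨h2, _⟩ | ⟨h2, _⟩ <;> omega
  · simp only [mem_RE_true]
    push_cast
    refine ⟨?_, ?_, ?_, ?_⟩ <;> rcases abs_cases x with ⟨h1, _⟩ | ⟨h1, _⟩ <;>
      rcases abs_cases y with ⟨h2, _⟩ | ⟨h2, _⟩ <;> omega

/-- the configuration with the forced edges of the box of radius `N` -/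
noncomputable def FN (F : Finset Edg) (P : Set Edg) (N : ℕ) : Finset Edg :=
  F ∪ (boxE N).filter (fun e => e ∈ P)

theorem mem_FN {F : Finset Edg} {P : Set Edg} {N : ℕ} {e : Edg} :
    e ∈ FN F P N ↔ e ∈ F ∨ (e ∈ boxE N ∧ e ∈ P) := by
  unfold FN
  rw [mem_union, mem_filter]

theorem FN_mono {F : Finset Edg} {P : Set Edg} {N N' : ℕ} (h : N ≤ N') : FN F P N ⊆ FN F P N' := by
  intro e he
  rw [mem_FN] at he ⊢
  exact he.imp_right fun h' => ⟨boxE_mono h h'.1, h'.2⟩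

theorem FN_sub (F : Finset Edg) (P : Set Edg) (N : ℕ) : F ⊆ FN F P N := subset_union_left

theorem reach_fin {F : Finset Edg} {P G : Set Edg} {u v : Vtx} (h : Reach ((↑F ∪ P) ∩ G) u v) :
    ∃ N, Reach (↑(FN F P N) ∩ G) u v := by
  induction h with
  | refl => exact ⟨0, Reach.refl _ _⟩
  | tail _ hs ih =>
    obtain ⟨N1, h1⟩ := ih
    obtain ⟨e, he, hv⟩ := hs
    obtain ⟨N2, h2⟩ := ex_box e
    refine ⟨max N1 N2, Relation.ReflTransGen.tail (h1.mono ?_) ⟨e, ?_, hv⟩⟩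
    · exact Set.inter_subset_inter_left _ (by exact_mod_cast FN_mono (le_max_left _ _))
    · refine ⟨?_, he.2⟩
      rw [mem_coe, mem_FN]
      rcases he.1 with h3 | h3
      · exact Or.inl (mem_coe.1 h3)
      · exact Or.inr ⟨boxE_mono (le_max_right _ _) h2, h3⟩

theorem Cj_mono {X Y : Set Edg} (h : X ⊆ Y) {A T : Set Vtx} (h' : Cj X A T) : Cj Y A T := by
  obtain ⟨u, hu, v, hv, hr⟩ := h'
  exact ⟨u, hu, v, hv, hr.mono h⟩

theorem Ev_mono {G P : Set Edg} {A T : Set Vtx} {L : List (Set Vtx × Set Vtx)} {X Y : Set Edg}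
    (h : X ⊆ Y) (h' : Ev G P A T L X) : Ev G P A T L Y := by
  have h1 : (X ∪ P) ∩ G ⊆ (Y ∪ P) ∩ G :=
    Set.inter_subset_inter_left _ (Set.union_subset_union_left _ h)
  exact ⟨Cj_mono h1 h'.1, fun q hq => Cj_mono h1 (h'.2 q hq)⟩

theorem cj_fin {F : Finset Edg} {P G : Set Edg} {A T : Set Vtx} (h : Cj ((↑F ∪ P) ∩ G) A T) :
    ∃ N, ∀ N' ≥ N, Cj (↑(FN F P N') ∩ G) A T := by
  obtain ⟨u, hu, v, hv, hr⟩ := h
  obtain ⟨N, hN⟩ := reach_fin hr
  refine ⟨N, fun N' h => ⟨u, hu, v, hv, hN.mono ?_⟩⟩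
  exact Set.inter_subset_inter_left _ (by exact_mod_cast FN_mono h)

theorem jn_fin {F : Finset Edg} {P G : Set Edg} {L : List (Set Vtx × Set Vtx)}
    (h : Jn ((↑F ∪ P) ∩ G) L) : ∃ N, ∀ N' ≥ N, Jn (↑(FN F P N') ∩ G) L := by
  induction L with
  | nil => exact ⟨0, fun N' _ q hq => absurd hq List.not_mem_nil⟩
  | cons q L ih =>
    obtain ⟨N1, h1⟩ := ih fun q' hq' => h q' (List.mem_cons_of_mem _ hq')
    obtain ⟨N2, h2⟩ := cj_fin (h q List.mem_cons_self)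
    refine ⟨max N1 N2, fun N' hN' q' hq' => ?_⟩
    rcases List.mem_cons.1 hq' with rfl | h3
    · exact h2 N' ((le_max_right _ _).trans hN')
    · exact h1 N' ((le_max_left _ _).trans hN') q' h3

theorem ev_fin {F : Finset Edg} {P G : Set Edg} {A T : Set Vtx} {L : List (Set Vtx × Set Vtx)}
    (h : Ev G P A T L ↑F) : ∃ N, ∀ N' ≥ N, Cj (↑(FN F P N') ∩ G) A T ∧
      Jn (↑(FN F P N') ∩ G) L := by
  obtain ⟨N1, h1⟩ := cj_fin h.1
  obtain ⟨N2, h2⟩ := jn_fin h.2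
  exact ⟨max N1 N2, fun N' h => ⟨h1 N' ((le_max_left _ _).trans h),
    h2 N' ((le_max_right _ _).trans h)⟩⟩

theorem Fr_mono {r R : ℕ} (h : r ≤ R) {T : Set Vtx} (hT : Fr R T) : Fr r T :=
  fun v hv hv' => hT v hv (Pool.Agent.U363.SA.inB_mono h hv')

/-- the deterministic step: the mixed configuration has the event -/
theorem step {D : Set Edg} {s0 : ℕ} {Qe : ℕ → Finset Edg → Prop} (h2 : KeyX D s0 Qe)
    {s : ℕ} (hs0 : 0 < s) (hs : s0 ≤ s) {G1 G2 G3 P1 P2 P3 : Set Edg}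
    (hG1 : ∀ e ∈ boxE (16*s), (e ∈ G1 ↔ e ∈ G3)) (hG2 : ∀ e ∉ boxE (16*s), (e ∈ G2 ↔ e ∈ G3))
    (hD : ∀ e ∈ boxE (80*s+1), e ∉ boxE (2*s-1) → (e ∈ G3 ↔ e ∈ D))
    (hP1 : ∀ e ∈ boxE (16*s), e ∈ P1 → e ∈ P3) (hP2 : ∀ e ∉ boxE (16*s), e ∈ P2 → e ∈ P3)
    (hmono : ∀ F G, F ⊆ G → Qe s F → Qe s G)
    {A B T T' : Set Vtx} {L L' : List (Set Vtx × Set Vtx)} {F F' : Finset Edg}
    (hQ : Qe s (mix (boxE (16*s)) F F'))
    (hA : ∀ u ∈ A, inB (2*s) u) (hB : ∀ u ∈ B, inB (2*s) u)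
    (hT : Fr (80*s+1) T) (hT' : Fr (80*s+1) T') (hL' : ∀ q ∈ L', Fr (80*s+1) q.1 ∧ Fr (80*s+1) q.2)
    (hX : Ev G1 P1 A T L ↑F) (hX' : Ev G2 P2 B T' L' ↑F') :
    Ev G3 P3 A T' L' ↑(mix (boxE (16*s)) F F') := by
  obtain ⟨N1, hN1⟩ := ev_fin hX
  obtain ⟨N2, hN2⟩ := ev_fin hX'
  obtain ⟨a1, a2⟩ := hN1 (max N1 N2) (le_max_left _ _)
  obtain ⟨b1, b2⟩ := hN2 (max N1 N2) (le_max_right _ _)
  generalize max N1 N2 = N at a1 a2 b1 b2
  have hsub : mix (boxE (16*s)) F F' ⊆ mix (boxE (16*s)) (FN F P1 N) (FN F' P2 N) := by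
    intro e he
    simp only [mix, mem_union, mem_inter, Finset.mem_sdiff] at he ⊢
    rcases he with h | h
    · exact Or.inl ⟨FN_sub _ _ _ h.1, h.2⟩
    · exact Or.inr ⟨FN_sub _ _ _ h.1, h.2⟩
  have hsub2 : (↑(mix (boxE (16*s)) (FN F P1 N) (FN F' P2 N)) : Set Edg) ∩ G3 ⊆
      (↑(mix (boxE (16*s)) F F') ∪ P3) ∩ G3 := by
    refine Set.inter_subset_inter_left _ fun e he => ?_
    rw [mem_coe] at he
    simp only [mix, mem_union, mem_inter, Finset.mem_sdiff, mem_FN] at he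
    rw [Set.mem_union, mem_coe]
    simp only [mix, mem_union, mem_inter, Finset.mem_sdiff]
    rcases he with ⟨h | h, h'⟩ | ⟨h | h, h'⟩
    · exact Or.inl (Or.inl ⟨h, h'⟩)
    · exact Or.inr (hP1 e h' h.2)
    · exact Or.inl (Or.inr ⟨h, h'⟩)
    · exact Or.inr (hP2 e h' h.2)
  obtain ⟨k1, k2⟩ := h2 s hs0 hs G1 G2 G3 hG1 hG2 hD (FN F P1 N) (FN F' P2 N)
    (hmono _ _ hsub hQ)
  exact ⟨Cj_mono hsub2 (k1 A B T T' hA hB hT hT' a1 b1),
    fun q hq => Cj_mono hsub2 (k2 q.1 q.2 (hL' q hq).1 (hL' q hq).2 (b2 q hq))⟩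

theorem t_SWXG : SWXGStm := by
  intro h1 hlim D s0 Qe h2 h3
  obtain ⟨δ, hδ0, hδ1, hQ⟩ := h3
  have hδ4 : 0 < δ ^ 4 := by positivity
  have hδ4' : δ ^ 4 ≤ 1 := pow_le_one₀ hδ0.le hδ1
  refine ⟨s0, 1 - δ ^ 4, by linarith, by linarith, ?_⟩
  intro K m R G11 G12 G21 G22 P11 P12 P21 P22 A1 A2 T1 T2 L1 L2 hm hm0 hA1 hA2 hR hin hout hD
    hT1 hT2 hL1 hL2
  have hfin : ∀ M : ℕ, R ≤ M →
      Pr (fun _ => (1/2 : ℝ)) (boxE M) (fun F => Ev G11 P11 A1 T1 L1 ↑F) *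
        Pr (fun _ => (1/2 : ℝ)) (boxE M) (fun F => Ev G22 P22 A2 T2 L2 ↑F) ≤
      Pr (fun _ => (1/2 : ℝ)) (boxE M) (fun F => Ev G12 P12 A1 T2 L2 ↑F) *
        Pr (fun _ => (1/2 : ℝ)) (boxE M) (fun F => Ev G21 P21 A2 T1 L1 ↑F) +
        (1 - δ ^ 4) ^ K * (Pr (fun _ => (1/2 : ℝ)) (boxE M) (fun F => Ev G11 P11 A1 T1 L1 ↑F) *
        Pr (fun _ => (1/2 : ℝ)) (boxE M) (fun F => Ev G22 P22 A2 T2 L2 ↑F)) := by
    intro M hM
    have hsR : ∀ i < K, 80 * (64 ^ i * m) + 1 ≤ R := fun i hi => (scale_le hm hi).trans hR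
    refine h1 (fun _ => (1/2 : ℝ)) okh (boxE M) K
      (fun i => boxE (16 * (64 ^ i * m))) (fun i => Rg (64 ^ i * m)) (fun i => Qe (64 ^ i * m))
      (fun F => Ev G11 P11 A1 T1 L1 ↑F) (fun F => Ev G12 P12 A1 T2 L2 ↑F)
      (fun F => Ev G21 P21 A2 T1 L1 ↑F) (fun F => Ev G22 P22 A2 T2 L2 ↑F)
      δ hδ0.le ?_ ?_ ?_ ?_ ?_ ?_ ?_ ?_ ?_
    · intro i j hij _
      have := scale_step (m := m) hij
      have h1' := one_le_scale (m := m) (i := i) hm
      exact sdiff_subset.trans (boxE_mono (by omega))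
    · intro i j hij _
      have := scale_step (m := m) hij
      have h1' := one_le_scale (m := m) (i := i) hm
      refine (disjoint_sdiff (s := boxE (2 * (64 ^ j * m) - 1))
        (t := boxE (80 * (64 ^ j * m) + 1))).mono_left ?_
      exact sdiff_subset.trans (boxE_mono (by omega))
    · intro i hi
      exact sdiff_subset.trans (boxE_mono ((hsR i hi).trans hM))
    · intro i _ F
      exact (hQ _ (Nat.mul_pos (by positivity) hm)).1 F
    · intro i _ F G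
      exact (hQ _ (Nat.mul_pos (by positivity) hm)).2.1 F G
    · intro i hi
      exact (hQ _ (Nat.mul_pos (by positivity) hm)).2.2 _ (boxE_mono ((hsR i hi).trans hM))
    · exact fun F G h hF => Ev_mono (by exact_mod_cast h) hF
    · exact fun F G h hF => Ev_mono (by exact_mod_cast h) hF
    · intro i hi F F' _ _ _ _ hmix1 hmix2 hX1 hX2
      have hs := one_le_scale (m := m) (i := i) hm
      have hsi := hsR i hi
      have hQm := (hQ (64 ^ i * m) (Nat.mul_pos (by positivity) hm)).2.1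
      obtain ⟨s, hs'⟩ : ∃ s, s = 64 ^ i * m := ⟨_, rfl⟩
      simp only [← hs'] at hs hsi hmix1 hmix2 hQm ⊢
      have hs0 : 0 < s := by omega
      have e1 : boxE (16 * s) ⊆ boxE R := boxE_mono (by omega)
      have e2 : boxE m ⊆ boxE (16 * s) := boxE_mono (by omega)
      have e3 : boxE (80 * s + 1) ⊆ boxE R := boxE_mono hsi
      have e4 : boxE m ⊆ boxE (2 * s - 1) := boxE_mono (by omega)
      have e5 : ∀ v ∈ A1, inB (2 * s) v := fun v hv => Pool.Agent.U363.SA.inB_mono (by omega) (hA1 v hv)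
      have e6 : ∀ v ∈ A2, inB (2 * s) v := fun v hv => Pool.Agent.U363.SA.inB_mono (by omega) (hA2 v hv)
      constructor
      · refine step h2 hs0 (by omega) (G1 := G11) (G2 := G22) (P1 := P11) (P2 := P22)
          ?_ ?_ ?_ ?_ ?_ hQm hmix1 e5 e6 (Fr_mono hsi hT1) (Fr_mono hsi hT2)
          (fun q hq => ⟨Fr_mono hsi (hL2 q hq).1, Fr_mono hsi (hL2 q hq).2⟩) hX1 hX2
        · exact fun e he => (hin e (e1 he)).1.1
        · exact fun e he => (hout e (fun h => he (e2 h))).1.2.symm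
        · intro e he he'
          rw [← (hin e (e3 he)).1.1]
          exact hD e (e3 he) (fun h => he' (e4 h))
        · exact fun e he h => (hin e (e1 he)).2.1.1 h
        · exact fun e he h => (hout e (fun h => he (e2 h))).2.2.2 h
      · refine step h2 hs0 (by omega) (G1 := G22) (G2 := G11) (P1 := P22) (P2 := P11)
          ?_ ?_ ?_ ?_ ?_ hQm hmix2 e6 e5 (Fr_mono hsi hT2) (Fr_mono hsi hT1)
          (fun q hq => ⟨Fr_mono hsi (hL1 q hq).1, Fr_mono hsi (hL1 q hq).2⟩) hX2 hX1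
        · exact fun e he => (hin e (e1 he)).1.2.symm
        · exact fun e he => (hout e (fun h => he (e2 h))).1.1
        · intro e he he'
          rw [← (hout e (fun h => he' (e4 h))).1.1]
          exact hD e (e3 he) (fun h => he' (e4 h))
        · exact fun e he h => (hin e (e1 he)).2.2.2 h
        · exact fun e he h => (hout e (fun h => he (e2 h))).2.1.1 h
  refine le_of_tendsto_of_tendsto ((hlim G11 P11 A1 T1 L1).mul (hlim G22 P22 A2 T2 L2))
    (((hlim G12 P12 A1 T2 L2).mul (hlim G21 P21 A2 T1 L1)).add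
      (((hlim G11 P11 A1 T1 L1).mul (hlim G22 P22 A2 T2 L2)).const_mul _)) ?_
  filter_upwards [eventually_ge_atTop R] with M hM
  exact hfin M hM

end Pool.Agent.U796.SA
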